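import Pool.Agent.H590Z.HC.Par
import Pool.Agent.H488Z.HC.Hilb
import Pool.Agent.H487Z.WeakType

set_option autoImplicit false

namespace Pool.Agent.H590Z.HC.H399

open Finset Filter Topology

/-- The inner radius of region `l`. -/
def LL (l : ℕ) : ℕ := 2 ^ (4 * (l + 10) ^ 3 - 8 * (l + 10))

lemma cube_ge (l : ℕ) : 100 * (l + 10) ≤ (l + 10) ^ 3 := by
  have : 100 ≤ (l + 10) ^ 2 := by
    calc 100 = 10 ^ 2 := by norm_num
      _ ≤ (l + 10) ^ 2 := Nat.pow_le_pow_left (by omega) 2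
  calc 100 * (l + 10) ≤ (l + 10) ^ 2 * (l + 10) := Nat.mul_le_mul_right _ this
    _ = (l + 10) ^ 3 := by ring

lemma e6 (l : ℕ) : 2 ^ (6 * (l + 10)) * LL l = UN l := by
  have := cube_ge l
  rw [LL, UN, ← pow_add]; congr 1; omega

lemma e8 (l : ℕ) : 2 ^ (8 * (l + 10)) * LL l = TN l := by
  have := cube_ge l
  rw [LL, TN, ← pow_add]; congr 1; omega

lemma e10 (l : ℕ) : 2 ^ (10 * (l + 10)) * LL l = wN l ^ 2 * TN l := by
  have := cube_ge l
  rw [LL, TN, wN, ← pow_mul, ← pow_add, ← pow_add]; congr 1; omega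

lemma e12 (l : ℕ) : 2 ^ (12 * (l + 10)) * LL l = 2 ^ (4 * (l + 10) ^ 3 + 4 * (l + 10)) := by
  have := cube_ge l
  rw [LL, ← pow_add]; congr 1; omega

lemma UT (l : ℕ) : 16 * UN l ≤ TN l := by
  have := cube_ge l
  have h : 16 * UN l = 2 ^ (4 + (4 * (l + 10) ^ 3 - 2 * (l + 10))) := by rw [UN, pow_add]; norm_num
  rw [h, TN]
  exact Nat.pow_le_pow_right (by norm_num) (by omega)

lemma LT (l : ℕ) : LL l ≤ TN l := by
  rw [LL, TN]; exact Nat.pow_le_pow_right (by norm_num) (by omega)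

lemma T12 (l : ℕ) : 2 * TN l ≤ 2 ^ (12 * (l + 10)) * LL l := by
  rw [e12, TN, ← pow_succ']; exact Nat.pow_le_pow_right (by norm_num) (by omega)

lemma cube_step {l m : ℕ} (h : l < m) :
    4 * (l + 10) ^ 3 + 4 * (l + 10) + 8 * (m + 10) < 4 * (m + 10) ^ 3 := by
  obtain ⟨d, rfl⟩ := Nat.exists_eq_add_of_lt h
  ring_nf
  nlinarith [Nat.zero_le (l * d), Nat.zero_le (l ^ 2), Nat.zero_le (d ^ 2), Nat.zero_le (d ^ 3),
    Nat.zero_le (l * d ^ 2), Nat.zero_le (l ^ 2 * d)]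

lemma sepL {l m : ℕ} (h : l < m) : 2 ^ (12 * (l + 10)) * LL l < LL m := by
  have := cube_step h
  rw [e12, LL]; exact Nat.pow_lt_pow_right (by norm_num) (by omega)

lemma early {k l : ℕ} (h : k < l) : 2 * TN k ≤ UN l := by
  have := cube_step h
  rw [TN, UN, ← pow_succ']; exact Nat.pow_le_pow_right (by norm_num) (by omega)

lemma late {l k : ℕ} (h : l < k) : wN l ^ 2 * TN l < TN k := by
  have := cube_step h
  rw [TN, TN, wN, ← pow_mul, ← pow_add]; exact Nat.pow_lt_pow_right (by norm_num) (by omega)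

lemma L_gt (l : ℕ) : l < LL l := by
  have := cube_ge l
  have h2 : 4 * (l + 10) ^ 3 - 8 * (l + 10) < LL l := Nat.lt_two_pow_self
  omega

lemma s_ge (l : ℕ) : 1000 ≤ sN l := by
  have := cube_ge l
  rw [sN]; omega

lemma Ps (l : ℕ) : 2 * PN l * sN l ≤ TN l := by
  have := Nat.div_mul_le_self (TN l) (2 * sN l)
  rw [PN]; nlinarith

lemma blk_bd (l : ℕ) (t : ℤ) (ht : t ∈ blk l) : (TN l : ℤ) ≤ t ∧ t < 2 * TN l := by
  obtain ⟨j, hj, rfl⟩ := Finset.mem_image.1 ht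
  have hj' := Finset.mem_range.1 hj
  have hs := s_ge l
  have h1 : j * sN l < 2 * PN l * sN l := Nat.mul_lt_mul_of_pos_right hj' (by omega)
  have h2 : j * sN l < TN l := lt_of_lt_of_le h1 (Ps l)
  have h3 : ((j * sN l : ℕ) : ℤ) < TN l := by exact_mod_cast h2
  have h4 : (0 : ℤ) ≤ ((j * sN l : ℕ) : ℤ) := Int.natCast_nonneg _
  push_cast at h3 h4
  rw [node]
  constructor <;> linarith

lemma blk_card (l : ℕ) : (blk l).card * sN l ≤ TN l := by
  have h : (blk l).card ≤ 2 * PN l := by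
    have := Finset.card_image_le (s := range (2 * PN l)) (f := node l)
    rwa [Finset.card_range] at this
  exact le_trans (Nat.mul_le_mul_right _ h) (Ps l)

/-- The region of step `l`. -/
noncomputable def RR (l : ℕ) : Finset ℤ :=
  (Finset.Icc (-((2 ^ (12 * (l + 10)) * LL l : ℕ) : ℤ)) ((2 ^ (12 * (l + 10)) * LL l : ℕ) : ℤ)).filter
    fun n => (LL l : ℤ) ≤ |n|

lemma mem_RR (l : ℕ) (n : ℤ) :
    n ∈ RR l ↔ (LL l : ℤ) ≤ |n| ∧ |n| ≤ ((2 ^ (12 * (l + 10)) * LL l : ℕ) : ℤ) := by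
  rw [RR, Finset.mem_filter, Finset.mem_Icc, ← abs_le, and_comm]

lemma RR_disj {l m : ℕ} (h : l ≠ m) : Disjoint (RR l) (RR m) := by
  wlog hlm : l < m generalizing l m
  · exact (this h.symm (by omega)).symm
  rw [Finset.disjoint_left]
  intro n hn hm
  have h1 := ((mem_RR l n).1 hn).2
  have h2 := ((mem_RR m n).1 hm).1
  have h3 : ((2 ^ (12 * (l + 10)) * LL l : ℕ) : ℤ) < LL m := by exact_mod_cast sepL hlm
  linarith

lemma pick (RR : ℕ → Finset ℤ) (RR_disj : ∀ {l m : ℕ}, l ≠ m → Disjoint (RR l) (RR m))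
    (f : ℤ → ℝ) (hf0 : ∀ n, 0 ≤ f n) (hf : Summable f) (c : ℝ) (hc : 0 < c) (l0 : ℕ) :
    ∃ l, l0 ≤ l ∧ ∑ n ∈ RR l, f n ≤ c / ((l : ℝ) + 10) := by
  by_contra hcon
  push Not at hcon
  have hs : Summable fun l => ∑ n ∈ RR l, f n := by
    refine summable_of_sum_le (c := ∑' n, f n) (fun l => Finset.sum_nonneg fun n _ => hf0 n) ?_
    intro u
    rw [← Finset.sum_biUnion (fun a _ b _ hab => RR_disj hab)]
    exact hf.sum_le_tsum _ fun n _ => hf0 n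
  have hs2 : Summable fun k => ∑ n ∈ RR (k + l0), f n := (summable_nat_add_iff l0).2 hs
  have hs3 : Summable fun k : ℕ => c * (1 / ((k + (l0 + 10) : ℕ) : ℝ)) := by
    refine Summable.of_nonneg_of_le (fun k => by positivity) (fun k => ?_) hs2
    have := (hcon (k + l0) (by omega)).le
    refine le_trans (le_of_eq ?_) this
    push_cast
    rw [mul_one_div]; congr 1; ring
  have hs4 : Summable fun k : ℕ => 1 / ((k + (l0 + 10) : ℕ) : ℝ) :=
    (summable_mul_left_iff hc.ne').1 hs3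
  exact Real.not_summable_one_div_natCast
    ((summable_nat_add_iff (f := fun n : ℕ => 1 / (n : ℝ)) (l0 + 10)).1 hs4)

lemma grow (C : ℝ) (hC : 0 < C) : ∃ l0 : ℕ, ∀ l, l0 ≤ l → C * ((l : ℝ) + 10) ≤ wN l := by
  have h := tendsto_pow_const_div_const_pow_of_one_lt 1 (r := (2 : ℝ)) (by norm_num)
  have h2 := h.eventually (gt_mem_nhds (show (0 : ℝ) < 1 / C by positivity))
  obtain ⟨l0, hl0⟩ := eventually_atTop.1 h2
  refine ⟨l0, fun l hl => ?_⟩
  have h3 := hl0 (l + 10) (by omega)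
  rw [div_lt_div_iff₀ (by positivity) hC] at h3
  rw [wN]
  push_cast at h3 ⊢
  nlinarith

lemma tail (f : ℤ → ℝ) (hf : Summable f) (e : ℝ) (he : 0 < e) :
    ∃ l0 : ℕ, ∀ l, l0 ≤ l → ∀ F : Finset ℤ, (∀ n ∈ F, (LL l : ℤ) ≤ |n|) → ∑ n ∈ F, f n ≤ e := by
  obtain ⟨s, hs⟩ := hf.vanishing (gt_mem_nhds he)
  refine ⟨s.sup Int.natAbs, fun l hl F hF => (hs F ?_).le⟩
  rw [Finset.disjoint_left]
  intro n hn hns
  have h1 : n.natAbs ≤ s.sup Int.natAbs := Finset.le_sup hns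
  have h2 := hF n hn
  have h3 := L_gt l
  have h4 : |n| = (n.natAbs : ℤ) := (Int.natCast_natAbs n).symm
  omega

lemma Ch_mul (c : ℂ) (y : ℤ → ℂ) (z : ℂ) : Ch (fun t => c * y t) z = c * Ch y z := by
  rw [Ch, Ch, ← tsum_mul_left]
  exact tsum_congr fun t => mul_div_assoc _ _ _

lemma dg_mul (N : Set ℤ) (lam g x y : ℤ → ℂ) (c : ℂ) (n : ℤ) :
    dg N lam g x (fun t => c * y t) n = c * dg N lam g x y n := by
  unfold dg
  rw [Ch_mul]
  split_ifs <;> ring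

lemma final (i M w : ℝ) (hi : 10 ≤ i) (hM : 1 ≤ M) (hw : 10 ^ 14 * M ^ 2 * i ≤ w) :
    ¬ 1 ≤ 10 ^ 7 * (10 ^ 6 * √i ^ 3 * (1 / (10 ^ 7 * √i))) *
      ((1 / (10 ^ 7 * √i) + 1 / (10 ^ 7 * √i) + 10 ^ 6 * (1 / (10 ^ 7 * √i))) * (1 / (10 ^ 7 * √i)) +
        M / w + 1 / (10 ^ 7 * √i) / √i ^ 3) := by
  have hv : 0 < √i := Real.sqrt_pos.2 (by linarith)
  have hv2 : √i ^ 2 = i := Real.sq_sqrt (by linarith)
  set v := √i with hvd
  have hw0 : 0 < w := lt_of_lt_of_le (by positivity) hw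
  have e : 10 ^ 7 * (10 ^ 6 * v ^ 3 * (1 / (10 ^ 7 * v))) *
      ((1 / (10 ^ 7 * v) + 1 / (10 ^ 7 * v) + 10 ^ 6 * (1 / (10 ^ 7 * v))) * (1 / (10 ^ 7 * v)) +
        M / w + 1 / (10 ^ 7 * v) / v ^ 3) =
      (2 + 10 ^ 6) / 10 ^ 8 + 10 ^ 6 * v ^ 2 * M / w + 1 / (10 * v ^ 2) := by
    field_simp
    ring
  rw [e, hv2]
  have h1 : 10 ^ 6 * i * M / w ≤ 1 / 4 := by
    rw [div_le_div_iff₀ hw0 (by norm_num)]
    have : M ≤ M ^ 2 := by nlinarith
    have h2 : i * M ≤ i * M ^ 2 := mul_le_mul_of_nonneg_left this (by linarith)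
    nlinarith
  have h2 : 1 / (10 * i) ≤ 1 / 100 := by
    apply one_div_le_one_div_of_le <;> linarith
  intro h
  norm_num at h h1 h2
  linarith

end Pool.Agent.H590Z.HC.H399
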