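import Pool.Agent.H399Z.HC.H4Aux

set_option autoImplicit false

namespace Pool.Agent.H590Z.HC.H399

open Finset Filter Topology

/-- The statement of the piece `core`. -/
def CoreS : Prop :=
  ∀ (x y ξ ξ' : ℤ → ℂ) (M a b D A σ : ℝ) (L q : ℕ) (Bad1 Bad2 W : Finset ℤ),
    (∀ (c : ℤ → ℂ) (F G : Finset ℤ),
      ∑ m ∈ G, ‖∑ n ∈ F, c n / ((m : ℂ) + 1 / 2 - n)‖ ^ 2 ≤ 10 * ∑ n ∈ F, ‖c n‖ ^ 2) →
    (∀ (c : ℤ → ℂ) (F G : Finset ℤ) (lam : ℝ), 0 < lam →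
      (∀ m ∈ G, lam < ‖∑ n ∈ F, c n / ((m : ℂ) + 1 / 2 - n)‖) → lam * G.card ≤ 64 * ∑ n ∈ F, ‖c n‖) →
    1 ≤ L → 1 ≤ M → 0 ≤ a → 0 ≤ b → 0 ≤ D → 0 ≤ A → 0 < σ →
    1000 * M ^ 2 ≤ 2 ^ q → a * b ≤ 1 / 10 ^ 5 →
    (∀ F : Finset ℤ, ∑ n ∈ F, ‖x n‖ ^ 2 ≤ M ^ 2) → (∀ F : Finset ℤ, ∑ n ∈ F, ‖y n‖ ^ 2 ≤ M ^ 2) →
    HasSum (fun n => x n * y n) 1 →
    (∀ F : Finset ℤ, (∀ n ∈ F, (L : ℤ) ≤ |n| ∧ |n| ≤ 2 ^ (12 * q) * L) → ∑ n ∈ F, ‖x n‖ ^ 2 ≤ a ^ 2) →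
    (∀ F : Finset ℤ, (∀ n ∈ F, (L : ℤ) ≤ |n| ∧ |n| ≤ 2 ^ (12 * q) * L) → ∑ n ∈ F, ‖y n‖ ^ 2 ≤ b ^ 2) →
    (∀ F : Finset ℤ, (∀ n ∈ F, (L : ℤ) ≤ |n|) → ∑ n ∈ F, ‖x n * y n‖ ≤ 1 / 16) →
    (∀ m : ℤ, ξ' m * ∑' n : ℤ, y n / ((m : ℂ) + 1 / 2 - n) =
      ∑' n : ℤ, x n * y n / ((m : ℂ) + 1 / 2 - n)) →
    (∀ n : ℤ, n ∉ Bad1 → n ∉ Bad2 → |n| ≤ 2 ^ (10 * q) * L → y n ≠ 0 → x n = ξ n) →
    (∀ F : Finset ℤ, (∀ n ∈ F, n ∉ Bad1 ∧ n ∉ Bad2 ∧ |n| ≤ 2 ^ (10 * q) * L) →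
      ∑ n ∈ F, ‖ξ' n - ξ n‖ ^ 2 ≤ D ^ 2) →
    (∀ n : ℤ, |n| < 2 ^ (6 * q) * L → n ∈ Bad1) → Bad1.card ≤ 8 * (2 ^ (6 * q) * L) →
    σ ^ 2 * Bad2.card ≤ 2 ^ (8 * q) * L →
    (∀ n ∈ Bad2, (L : ℤ) ≤ |n| ∧ |n| ≤ 2 ^ (12 * q) * L) →
    (∀ m ∈ W, (2 : ℤ) ^ (8 * q) * L ≤ m ∧ m ≤ 2 * (2 ^ (8 * q) * L)) →
    2 ^ (8 * q) * L ≤ 2 * W.card → ∑ m ∈ W, ‖ξ' m‖ ^ 2 ≤ A ^ 2 →
    1 ≤ 10 ^ 7 * A * ((a + b + D) * b + M / 2 ^ q + b / σ)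

/-- The statement of the piece `ident_N`. -/
def IdentS : Prop :=
  ∀ (x y : ℤ → ℂ) (M : ℝ), 0 ≤ M → (∀ F : Finset ℤ, ∑ n ∈ F, ‖x n‖ ^ 2 ≤ M ^ 2) →
    (∀ F : Finset ℤ, ∑ n ∈ F, ‖y n‖ ^ 2 ≤ M ^ 2) → (∀ n, n ≠ 0 → dg NN lamN gN x y n = 0) → ∀ m : ℤ,
    Ch (fun t => gN t * x t) ((m : ℂ) + 1 / 2) / Ch gN ((m : ℂ) + 1 / 2) * Ch y ((m : ℂ) + 1 / 2) =
      Ch (fun t => x t * y t) ((m : ℂ) + 1 / 2)

/-- The statement of the piece `far_N`. -/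
def FarS : Prop :=
  ∀ (x : ℤ → ℂ) (M : ℝ), 0 ≤ M → (∀ F : Finset ℤ, ∑ n ∈ F, ‖x n‖ ^ 2 ≤ M ^ 2) → ∀ (l : ℕ)
    (G : Finset ℤ), (∀ n ∈ G, (UN l : ℤ) ≤ |n| ∧ |n| ≤ wN l ^ 2 * TN l ∧
      (n ≤ (TN l : ℤ) - UN l ∨ 2 * (TN l : ℤ) + UN l ≤ n)) →
    ∑ n ∈ G, ‖Ch (fun t => gN t * x t) ((n : ℂ) + 1 / 2) / Ch gN ((n : ℂ) + 1 / 2) -
      Ch (fun t => gN t * x t) n / Ch gN n‖ ^ 2 ≤ M ^ 2 / (wN l : ℝ) ^ 2

/-- The statement of the piece `int_N`. -/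
def IntS : Prop :=
  ∀ (x : ℤ → ℂ) (M a : ℝ), 0 ≤ M → (∀ F : Finset ℤ, ∑ n ∈ F, ‖x n‖ ^ 2 ≤ M ^ 2) → ∀ (l : ℕ),
    ∑ t ∈ blk l, ‖x t‖ ^ 2 ≤ a ^ 2 → ∀ (G : Finset ℤ),
    (∀ n ∈ G, (TN l : ℤ) + UN l ≤ n ∧ n ≤ 2 * (TN l : ℤ) - UN l ∧ n ∉ blk l) →
    ∑ n ∈ G, ‖Ch (fun t => gN t * x t) ((n : ℂ) + 1 / 2) / Ch gN ((n : ℂ) + 1 / 2)‖ ^ 2 ≤
      10 ^ 11 * (sN l * a ^ 2 + M ^ 2 / (wN l : ℝ) ^ 2) ∧
    ∑ n ∈ G, ‖Ch (fun t => gN t * x t) ((n : ℂ) + 1 / 2) / Ch gN ((n : ℂ) + 1 / 2) -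
      Ch (fun t => gN t * x t) n / Ch gN n‖ ^ 2 ≤ 10 ^ 11 * (a ^ 2 + M ^ 2 / (wN l : ℝ) ^ 2)

/-- The three short intervals. -/
noncomputable def B1 (T U : ℤ) : Finset ℤ :=
  Ioo (-U) U ∪ Ioo (T - U) (T + U) ∪ Ioo (2 * T - U) (2 * T + U)

lemma mem_B1 (T U n : ℤ) : n ∈ B1 T U ↔
    ((-U < n ∧ n < U) ∨ (T - U < n ∧ n < T + U)) ∨ (2 * T - U < n ∧ n < 2 * T + U) := by
  simp only [B1, Finset.mem_union, Finset.mem_Ioo]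

lemma card_B1 (T : ℤ) (U : ℕ) : (B1 T U).card ≤ 8 * U := by
  have h1 := Finset.card_union_le (Ioo (-(U : ℤ)) U ∪ Ioo (T - U) (T + U)) (Ioo (2 * T - U) (2 * T + U))
  have h2 := Finset.card_union_le (Ioo (-(U : ℤ)) U) (Ioo (T - U) (T + U))
  simp only [Int.card_Ioo] at h1 h2
  rw [B1]
  omega

lemma card_W (T U s : ℕ) (B : Finset ℤ) (h1 : 16 * U ≤ T) (hs : 1000 ≤ s) (h2 : B.card * s ≤ T) :
    T ≤ 2 * (Icc ((T : ℤ) + U) (2 * T - U) \ B).card := by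
  have h3 := Finset.le_card_sdiff B (Icc ((T : ℤ) + U) (2 * T - U))
  rw [Int.card_Icc] at h3
  have h4 : B.card * 1000 ≤ T := le_trans (Nat.mul_le_mul_left _ hs) h2
  omega

lemma not_NN (l : ℕ) (n : ℤ) (h1 : n ∉ B1 (TN l) (UN l)) (h2 : n ∉ blk l)
    (h3 : |n| ≤ ((wN l ^ 2 * TN l : ℕ) : ℤ)) : n ≠ 0 ∧ n ∉ NN := by
  rw [mem_B1] at h1
  have hU : (0 : ℤ) < UN l := by
    have : 0 < UN l := by rw [UN]; positivity
    exact_mod_cast this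
  have h0 : n ≠ 0 := by
    rintro rfl
    exact h1 (Or.inl (Or.inl ⟨by linarith, hU⟩))
  refine ⟨h0, ?_⟩
  rintro (h | ⟨k, hk⟩)
  · exact h0 h
  · have hb := blk_bd k n hk
    rcases lt_trichotomy k l with hkl | hkl | hkl
    · have h4 : ((2 * TN k : ℕ) : ℤ) ≤ UN l := by exact_mod_cast early hkl
      have h5 : (0 : ℤ) ≤ TN k := Int.natCast_nonneg _
      push_cast at h4
      exact h1 (Or.inl (Or.inl ⟨by linarith [hb.1], by linarith [hb.2]⟩))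
    · exact h2 (hkl ▸ hk)
    · have h4 : ((wN l ^ 2 * TN l : ℕ) : ℤ) < TN k := by exact_mod_cast late hkl
      linarith [hb.1, le_abs_self n]

lemma Ch_def (k : ℤ → ℂ) (z : ℂ) : Ch k z = ∑' t : ℤ, k t / (z - t) := rfl

attribute [local irreducible] TN UN wN sN LL blk RR gN NN lamN B1 Ch

theorem hc_one (hc : CoreS) (hi : IdentS) (hf : FarS) (hn : IntS) (x y : ℤ → ℂ)
    (hx : Summable fun n => ‖x n‖ ^ 2) (hy : Summable fun n => ‖y n‖ ^ 2)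
    (hxy : Summable fun n => ‖x n * y n‖)
    (h : ∀ n, n ≠ 0 → dg NN lamN gN x y n = 0) (h1 : HasSum (fun n => x n * y n) 1) : False := by
  obtain ⟨M, hM, hxM, hyM⟩ : ∃ M : ℝ, 1 ≤ M ∧ (∀ F : Finset ℤ, ∑ n ∈ F, ‖x n‖ ^ 2 ≤ M ^ 2) ∧
      ∀ F : Finset ℤ, ∑ n ∈ F, ‖y n‖ ^ 2 ≤ M ^ 2 := by
    have a1 : 0 ≤ ∑' n, ‖x n‖ ^ 2 := tsum_nonneg fun n => by positivity
    have a2 : 0 ≤ ∑' n, ‖y n‖ ^ 2 := tsum_nonneg fun n => by positivity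
    refine ⟨1 + ∑' n, ‖x n‖ ^ 2 + ∑' n, ‖y n‖ ^ 2, by linarith, fun F => ?_, fun F => ?_⟩
    · have := hx.sum_le_tsum F fun n _ => by positivity
      nlinarith
    · have := hy.sum_le_tsum F fun n _ => by positivity
      nlinarith
  obtain ⟨l1, hl1⟩ := grow (10 ^ 14 * M ^ 2) (by positivity)
  obtain ⟨l2, hl2⟩ := tail _ hxy (1 / 16) (by norm_num)
  obtain ⟨l, hl, hR⟩ := pick RR RR_disj (fun n => ‖x n‖ ^ 2 + ‖y n‖ ^ 2) (fun n => by positivity)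
    (hx.add hy) (1 / 10 ^ 14) (by norm_num) (max l1 l2)
  have hw := hl1 l (le_trans (le_max_left _ _) hl)
  have ht := hl2 l (le_trans (le_max_right _ _) hl)
  obtain ⟨i, hi'⟩ : ∃ i : ℝ, i = (l : ℝ) + 10 := ⟨_, rfl⟩
  rw [← hi'] at hw hR
  have hi10 : 10 ≤ i := by
    have : (0 : ℝ) ≤ l := Nat.cast_nonneg _
    linarith
  have hv : 0 < √i := Real.sqrt_pos.2 (by linarith)
  have hv2 : √i ^ 2 = i := Real.sq_sqrt (by linarith)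
  obtain ⟨α, hα⟩ : ∃ α : ℝ, α = 1 / (10 ^ 7 * √i) := ⟨_, rfl⟩
  have hα0 : 0 < α := by rw [hα]; positivity
  have hα2 : α ^ 2 = 1 / 10 ^ 14 / i := by
    rw [hα, div_pow, mul_pow, hv2]; field_simp
  have hs : (√i ^ 3) ^ 2 = (sN l : ℝ) := by
    rw [← pow_mul, show 3 * 2 = 2 * 3 from rfl, pow_mul, hv2, sN, hi']; push_cast; ring
  have hwq : (wN l : ℝ) = 2 ^ (l + 10) := by rw [wN]; push_cast; ring
  have hM2 : 1 ≤ M ^ 2 := by nlinarith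
  have hw1 : (1 : ℝ) ≤ wN l := by nlinarith
  have hMw : M ^ 2 / (wN l : ℝ) ^ 2 ≤ α ^ 2 := by
    rw [hα2, div_div, div_le_div_iff₀ (by positivity) (by positivity)]
    nlinarith
  have c12 : (2 : ℤ) ^ (12 * (l + 10)) * (LL l : ℤ) = ((2 ^ (12 * (l + 10)) * LL l : ℕ) : ℤ) := by
    push_cast; ring
  have c10 : (2 : ℤ) ^ (10 * (l + 10)) * (LL l : ℤ) = ((wN l ^ 2 * TN l : ℕ) : ℤ) := by
    rw [← e10]; push_cast; ring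
  have c8 : (2 : ℤ) ^ (8 * (l + 10)) * (LL l : ℤ) = (TN l : ℤ) := by
    rw [← e8]; push_cast; ring
  have c8r : (2 : ℝ) ^ (8 * (l + 10)) * (LL l : ℝ) = (TN l : ℝ) := by
    rw [← e8]; push_cast; ring
  have c6 : (2 : ℤ) ^ (6 * (l + 10)) * (LL l : ℤ) = (UN l : ℤ) := by
    rw [← e6]; push_cast; ring
  have hsub : ∀ F : Finset ℤ, (∀ n ∈ F, (LL l : ℤ) ≤ |n| ∧ |n| ≤ 2 ^ (12 * (l + 10)) * (LL l : ℤ)) →
      ∑ n ∈ F, (‖x n‖ ^ 2 + ‖y n‖ ^ 2) ≤ α ^ 2 := by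
    intro F hF
    rw [hα2]
    refine le_trans (Finset.sum_le_sum_of_subset_of_nonneg (fun n hn => ?_) fun n _ _ => by positivity) hR
    rw [mem_RR, ← c12]; exact hF n hn
  have hxa : ∀ F : Finset ℤ, (∀ n ∈ F, (LL l : ℤ) ≤ |n| ∧ |n| ≤ 2 ^ (12 * (l + 10)) * (LL l : ℤ)) →
      ∑ n ∈ F, ‖x n‖ ^ 2 ≤ α ^ 2 := fun F hF =>
    le_trans (Finset.sum_le_sum fun n _ => le_add_of_nonneg_right (by positivity)) (hsub F hF)
  have hya : ∀ F : Finset ℤ, (∀ n ∈ F, (LL l : ℤ) ≤ |n| ∧ |n| ≤ 2 ^ (12 * (l + 10)) * (LL l : ℤ)) →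
      ∑ n ∈ F, ‖y n‖ ^ 2 ≤ α ^ 2 := fun F hF =>
    le_trans (Finset.sum_le_sum fun n _ => le_add_of_nonneg_left (by positivity)) (hsub F hF)
  have hT0 : (0 : ℤ) ≤ TN l := Int.natCast_nonneg _
  have hU0 : (0 : ℤ) ≤ UN l := Int.natCast_nonneg _
  have hB3 : ∀ n ∈ blk l, (LL l : ℤ) ≤ |n| ∧ |n| ≤ 2 ^ (12 * (l + 10)) * (LL l : ℤ) := by
    intro n hn
    have hb := blk_bd l n hn
    have a1 : (LL l : ℤ) ≤ TN l := by exact_mod_cast LT l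
    have a2 : ((2 * TN l : ℕ) : ℤ) ≤ ((2 ^ (12 * (l + 10)) * LL l : ℕ) : ℤ) := by exact_mod_cast T12 l
    rw [c12, abs_of_nonneg (by linarith [hb.1])]
    rw [Nat.cast_mul 2 (TN l), Nat.cast_ofNat] at a2
    exact ⟨by linarith [hb.1], by linarith [hb.2]⟩
  have hint := hn x M α (by linarith) hxM l (hxa _ hB3)
  have key := hc x y (fun n => Ch (fun t => gN t * x t) n / Ch gN n)
    (fun n => Ch (fun t => gN t * x t) ((n : ℂ) + 1 / 2) / Ch gN ((n : ℂ) + 1 / 2)) M α α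
    (10 ^ 6 * α) (10 ^ 6 * √i ^ 3 * α) (√i ^ 3) (LL l) (l + 10) (B1 (TN l) (UN l)) (blk l)
    (Icc ((TN l : ℤ) + UN l) (2 * TN l - UN l) \ blk l) hilbert_ineq
    (fun c F G lam hl hG => weak_type c F G lam hl hG)
    (by have := L_gt l; omega) hM hα0.le hα0.le (by positivity) (by positivity) (by positivity)
    (by rw [← hwq]; nlinarith)
    (by
      rw [← sq, hα2, div_le_iff₀ (by linarith)]
      nlinarith)
    hxM hyM h1 hxa hya ht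
    (by
      intro m
      have := hi x y M (by linarith) hxM hyM h m
      rwa [Ch_def y, Ch_def fun t => x t * y t] at this)
    (by
      intro n a1 a2 a3 a4
      rw [c10] at a3
      obtain ⟨b1, b2⟩ := not_NN l n a1 a2 a3
      have := h n b1
      rw [dg, if_neg b2] at this
      exact sub_eq_zero.1 ((mul_eq_zero.1 this).resolve_right a4))
    (by
      intro F hF
      rw [← Finset.sum_filter_add_sum_filter_not F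
        (fun n => n ≤ (TN l : ℤ) - UN l ∨ 2 * (TN l : ℤ) + UN l ≤ n)]
      have a1 := hf x M (by linarith) hxM l
        (F.filter fun n => n ≤ (TN l : ℤ) - UN l ∨ 2 * (TN l : ℤ) + UN l ≤ n) (by
          intro n hn
          obtain ⟨b1, b2⟩ := Finset.mem_filter.1 hn
          obtain ⟨b3, -, b5⟩ := hF n b1
          rw [c10] at b5
          rw [mem_B1] at b3
          refine ⟨?_, by exact_mod_cast b5, b2⟩
          by_contra b6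
          rw [not_le, abs_lt] at b6
          exact b3 (Or.inl (Or.inl b6)))
      have a2 := (hint
        (F.filter fun n => ¬(n ≤ (TN l : ℤ) - UN l ∨ 2 * (TN l : ℤ) + UN l ≤ n)) (by
          intro n hn
          obtain ⟨b1, b2⟩ := Finset.mem_filter.1 hn
          obtain ⟨b3, b4, -⟩ := hF n b1
          rw [mem_B1] at b3
          refine ⟨?_, ?_, b4⟩ <;> omega)).2
      have a3 : 0 ≤ α ^ 2 := by positivity
      have a4 : (10 ^ 6 * α) ^ 2 = 10 ^ 12 * α ^ 2 := by ring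
      rw [a4]
      linarith)
    (by
      intro n a1
      rw [c6, abs_lt] at a1
      exact (mem_B1 _ _ _).2 (Or.inl (Or.inl a1)))
    (by rw [e6]; exact card_B1 _ _)
    (by
      rw [c8r, hs, mul_comm]
      exact_mod_cast blk_card l)
    hB3
    (by
      intro m hm
      have := Finset.mem_Icc.1 (Finset.mem_sdiff.1 hm).1
      rw [c8]
      exact ⟨by linarith [this.1], by linarith [this.2]⟩)
    (by rw [e8]; exact card_W _ _ _ _ (UT l) (s_ge l) (blk_card l))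
    (by
      have a2 := (hint (Icc ((TN l : ℤ) + UN l) (2 * TN l - UN l) \ blk l) (by
        intro n hn
        obtain ⟨b1, b2⟩ := Finset.mem_sdiff.1 hn
        obtain ⟨b3, b4⟩ := Finset.mem_Icc.1 b1
        exact ⟨b3, b4, b2⟩)).1
      have a3 : 0 ≤ α ^ 2 := by positivity
      have a4 : (10 ^ 6 * √i ^ 3 * α) ^ 2 = 10 ^ 12 * (sN l * α ^ 2) := by rw [← hs]; ring
      have a5 : (1 : ℝ) ≤ sN l := by
        have := s_ge l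
        exact_mod_cast (by omega : 1 ≤ sN l)
      have a6 : α ^ 2 ≤ sN l * α ^ 2 := le_mul_of_one_le_left a3 a5
      rw [a4]
      linarith)
  rw [← hwq, hα] at key
  exact final i M _ hi10 hM hw key

theorem hc_aux (hc : CoreS) (hi : IdentS) (hf : FarS) (hn : IntS) (x y : ℤ → ℂ)
    (hx : Summable fun n => ‖x n‖ ^ 2) (hy : Summable fun n => ‖y n‖ ^ 2)
    (h : ∀ n, n ≠ 0 → dg NN lamN gN x y n = 0) : ∑' n, x n * y n = 0 := by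
  by_contra hκ
  have hxy : Summable fun n => ‖x n * y n‖ := by
    refine Summable.of_nonneg_of_le (fun n => norm_nonneg _) (fun n => ?_) (hx.add hy)
    rw [norm_mul]
    nlinarith [sq_nonneg (‖x n‖ - ‖y n‖), norm_nonneg (x n), norm_nonneg (y n)]
  obtain ⟨κ, hκ'⟩ : ∃ κ, κ = ∑' n, x n * y n := ⟨_, rfl⟩
  rw [← hκ'] at hκ
  have hs : HasSum (fun n => x n * y n) κ := hκ' ▸ hxy.of_norm.hasSum
  refine hc_one hc hi hf hn x (fun t => κ⁻¹ * y t) hx ?_ ?_ ?_ ?_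
  · simp only [norm_mul, mul_pow]
    exact hy.mul_left _
  · have := hxy.mul_left ‖κ⁻¹‖
    refine this.congr fun n => ?_
    rw [← norm_mul]; congr 1; ring
  · intro n hn0
    rw [dg_mul, h n hn0, mul_zero]
  · have := hs.mul_left κ⁻¹
    rw [inv_mul_cancel₀ hκ] at this
    have e : (fun n => x n * (κ⁻¹ * y n)) = fun n => κ⁻¹ * (x n * y n) := by
      funext n; ring
    exact e ▸ this

end Pool.Agent.H590Z.HC.H399
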